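import Pool.Agent.H.MP_d3d931_al.Main

set_option autoImplicit false

namespace Pool.Agent.Results.MP_d3d931_al.Q1

open Pool.Agent.H.MP_d3d931_al

universe u

theorem result (S : Type u) [Semigroup S] (d : ℕ)
    (h : hcomm (fun _ : Fin (d + 1) => (⊤ : Con S)) = ⊥) :
    (∃ k : ℕ, leftSeries S k = ⊥) ∧ (∃ k : ℕ, rightSeries S k = ⊥) :=
  (main S d h).elim fun k hk => ⟨⟨k, hk.1⟩, ⟨k, hk.2⟩⟩

end Pool.Agent.Results.MP_d3d931_al.Q1
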